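import Pool.Agent.H280Z.Mult.Defs
import Pool.Agent.H280Z.Mult.Count

/-!
Two non-conjugate rational maps of degree 11 with the same multiplier spectrum, which are neither
Lattes maps nor elementarily equivalent.

The maps are `f` and `g = -f` with
`f(x) = (25 x^11 - 275 x^9 + 1100 x^7 - 1804 x^5 + 880 x^3) / (55 x^8 - 440 x^6 + 1100 x^4 - 880 x^2 + 256)`.
They are the quotients by `z ↦ 1 / z` of `F` and `-F`, where
`F(z) = z^3 (5 z^8 + 11) / (11 z^8 + 5)` satisfies `F(1/z) = 1/F(z)` and `F(c z) = c^3 F(z)` for
`c^8 = 1` (a dynamical form of the Gassmann-Sunada construction for the group `Z/8 ⋊ (Z/8)ˣ`).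
The odd iterates of `F` and `-F`, and those of `1/F` and `-1/F`, are conjugate by rotations; the
ramified points are superattracting, so they contribute the multiplier `0` on both sides.
The values with at most five preimages are `2` and `-2`; they are fixed by `f` and exchanged
by `g`. As 11 is prime, an elementary transformation is a conjugation.
-/

set_option autoImplicit false

namespace Pool.Agent.Results.MP_af33d6_an.IsospectralPair

open Pool.Agent.H280Z.Mult

theorem result : ∃ f g : P1 → P1, IsRat 11 f ∧ IsRat 11 g ∧ ¬ Conj f g ∧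
    (∀ n : ℕ, 1 ≤ n → spec f n = spec g n ∧ Multiset.card (spec f n) = 11 ^ n + 1) ∧
    ¬ IsLattes f ∧ ¬ IsLattes g ∧ ¬ ElemEquiv f g :=
  ⟨ff, gg, isRat_ff, isRat_gg, not_conj,
    fun n hn => ⟨spec_eq n, card_spec isRat_ff (by norm_num) hn⟩,
    not_lattes_ff, not_lattes_gg, not_elemEquiv⟩

end Pool.Agent.Results.MP_af33d6_an.IsospectralPair
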